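import Pool.Agent.Lib.H75M.G3

/-!
# MP_951a49_co: x-monotone drawings of `K_n` with at most `H(n) + 1` crossings are convex

Let `D` be a good drawing of the complete graph `K_n` in the plane all of whose edges are x-monotone arcs. If `D` has at most `H(n) + 1` crossings
then `D` is convex: every triangle has a convex side. As `K_n` has drawings with `H(n)` crossings, every optimal drawing of `K_n` which is x-monotone
(in particular every optimal drawing which is a 2-page drawing) is convex.

Proof (details in `Pool/Agent/Lib/H75M/PROOF.md`). Remove the last vertex again and again and count the edges with at most `k` vertices on one side: for odd `n = 2 m + 1` and at most `H(n) + 1` crossings all bounds are sharp,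
and the case of equality implies that every valid cap (the vertices on one side of an edge, if a vertex to the left and a vertex to the right of the edge are not among them) has at least `m - 1` vertices.
On the other hand five vertices which span a drawing that is not convex give two disjoint valid caps with four vertices outside both, by an extremal choice and a case distinction with at most seven vertices.
This is a contradiction, as `2 (m - 1) + 4 > 2 m + 1`. Even `n` follows by averaging over the `n` drawings of `K_(n-1)`, `n = 6` by a check of all sign patterns.
-/

set_option autoImplicit false

namespace Pool.Agent.Results.MP_951a49_co.MonotoneConvex

open H75M

/-- Every x-monotone good drawing of `K_n` with at most `H(n) + 1` crossings is convex. -/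
theorem result (n : ℕ) (D : MDrawing n) (h : D.cr ≤ hill n + 1) : D.Convex := D.main h

end Pool.Agent.Results.MP_951a49_co.MonotoneConvex
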